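import Mathlib

set_option autoImplicit false

namespace Pool.Agent.Results.MP_0a00ee_co.InducedCycles

open SimpleGraph

/-- A simple graph is chordal if it has no induced cycle of length at least four. -/
def IsChordal {V : Type*} (G : SimpleGraph V) : Prop :=
  ∀ n : ℕ, 4 ≤ n → IsEmpty (cycleGraph n ↪g G)

/-- `K` is (the vertex set of) a maximal clique of `G`. -/
def IsMaxClique {V : Type*} (G : SimpleGraph V) (K : Set V) : Prop :=
  Maximal G.IsClique K

/-- `K` and `K'` form a separating pair: they meet, and every path of `G` from a vertex of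
`K \ K'` to a vertex of `K' \ K` meets `K ∩ K'`. -/
def SeparatingPair {V : Type*} (G : SimpleGraph V) (K K' : Set V) : Prop :=
  (K ∩ K').Nonempty ∧
    ∀ u ∈ K \ K', ∀ v ∈ K' \ K, ∀ p : G.Walk u v, p.IsPath → ∃ x ∈ p.support, x ∈ K ∩ K'

theorem SeparatingPair.symm {V : Type*} {G : SimpleGraph V} {K K' : Set V}
    (h : SeparatingPair G K K') : SeparatingPair G K' K := by
  refine ⟨by rw [Set.inter_comm]; exact h.1, ?_⟩
  intro u hu v hv p hp
  obtain ⟨x, hx, hx'⟩ := h.2 v hv u hu p.reverse hp.reverse
  refine ⟨x, by simpa using hx, ?_⟩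
  rw [Set.inter_comm]; exact hx'

/-- The reduced clique graph of `G`: its vertices are the maximal cliques of `G`, two distinct
maximal cliques being adjacent exactly when they form a separating pair. -/
def reducedCliqueGraph {V : Type*} (G : SimpleGraph V) :
    SimpleGraph {K : Set V // IsMaxClique G K} where
  Adj K K' := K ≠ K' ∧ SeparatingPair G K.1 K'.1
  symm := ⟨fun _ _ h => ⟨h.1.symm, h.2.symm⟩⟩
  loopless := ⟨fun _ h => h.1 rfl⟩

/-! ### The even cycles: a split graph whose reduced clique graph contains an induced `k`-cycle -/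

/-- The attachment relation of the example. -/
def Att (k : ℕ) (i j : Fin k) : Prop :=
  i = j ∨ (Even j.val ∧ (cycleGraph k).Adj i j)

/-- The example graph: the vertices `inl i` form a clique, the vertices `inr j` are
independent, and `inr j` is joined to `inl i` when `Att k i j`. -/
def exGraph (k : ℕ) : SimpleGraph (Fin k ⊕ Fin k) where
  Adj x y :=
    match x, y with
    | Sum.inl i, Sum.inl j => i ≠ j
    | Sum.inl i, Sum.inr j => Att k i j
    | Sum.inr j, Sum.inl i => Att k i j
    | Sum.inr _, Sum.inr _ => False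
  symm := ⟨by
    rintro (i | i) (j | j) h
    · exact Ne.symm h
    · exact h
    · exact h
    · exact h⟩
  loopless := ⟨by
    rintro (i | i) h
    · exact h rfl
    · exact h⟩

@[simp] theorem exGraph_adj_ll (k : ℕ) (i j : Fin k) :
    (exGraph k).Adj (Sum.inl i) (Sum.inl j) ↔ i ≠ j := Iff.rfl

@[simp] theorem exGraph_adj_lr (k : ℕ) (i j : Fin k) :
    (exGraph k).Adj (Sum.inl i) (Sum.inr j) ↔ Att k i j := Iff.rfl

@[simp] theorem exGraph_adj_rl (k : ℕ) (i j : Fin k) :
    (exGraph k).Adj (Sum.inr j) (Sum.inl i) ↔ Att k i j := Iff.rfl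

@[simp] theorem exGraph_adj_rr (k : ℕ) (i j : Fin k) :
    (exGraph k).Adj (Sum.inr i) (Sum.inr j) ↔ False := Iff.rfl

/-- The clique around `inr j`. -/
def exClique (k : ℕ) (j : Fin k) : Set (Fin k ⊕ Fin k) :=
  fun x => match x with
    | Sum.inl i => Att k i j
    | Sum.inr i => i = j

@[simp] theorem mem_exClique_l (k : ℕ) (i j : Fin k) :
    Sum.inl i ∈ exClique k j ↔ Att k i j := Iff.rfl

@[simp] theorem mem_exClique_r (k : ℕ) (i j : Fin k) :
    Sum.inr i ∈ exClique k j ↔ i = j := Iff.rfl

theorem exClique_max (k : ℕ) (j : Fin k) : IsMaxClique (exGraph k) (exClique k j) := by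
  constructor
  · rintro (a | a) ha (b | b) hb hab
    · simpa using fun h => hab (by rw [h])
    · simp only [mem_exClique_l, mem_exClique_r] at ha hb
      subst hb; simpa using ha
    · simp only [mem_exClique_l, mem_exClique_r] at ha hb
      subst ha; simpa using hb
    · simp only [mem_exClique_r] at ha hb
      exact absurd (by rw [ha, hb]) hab
  · intro t ht hle x hx
    have hj : (Sum.inr j : Fin k ⊕ Fin k) ∈ t := hle (by simp)
    by_cases hxj : x = Sum.inr j
    · rw [hxj]; simp
    · have hadj := ht hx hj hxj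
      rcases x with a | a
      · simpa using hadj
      · simp at hadj

theorem cycle_split {n : ℕ} (Q : Fin (n + 4) → Prop)
    (h1 : ∀ a b, (cycleGraph (n + 4)).Adj a b → Q a ∨ Q b)
    (h2 : ∀ a b, a ≠ b → Q a → Q b → (cycleGraph (n + 4)).Adj a b) : False := by
  have key : ∀ a : Fin (n + 4), ¬ (Q a ∧ Q (a + 2)) := by
    rintro a ⟨ha, hb⟩
    have hne : a ≠ a + 2 := by
      intro h
      have : (2 : Fin (n + 4)) = 0 := by
        have := left_eq_add.mp h
        exact this
      simp only [Fin.ext_iff] at this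
      have e : ((2 : Fin (n + 4)) : ℕ) = 2 % (n + 4) := rfl
      rw [e, Nat.mod_eq_of_lt (by omega)] at this
      simp at this
    have := h2 _ _ hne ha hb
    rw [cycleGraph_adj] at this
    rcases this with h | h
    · have h3 : (3 : Fin (n + 4)) = 0 := by
        have : a - (a + 2) + 2 = 1 + 2 := by rw [h]
        have e1 : a - (a + 2) + 2 = 0 := by abel
        have e2 : (1 : Fin (n + 4)) + 2 = 3 := by
          apply Fin.ext; simp [Fin.val_add]
        rw [e1, e2] at this
        exact this.symm
      simp only [Fin.ext_iff] at h3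
      have e : ((3 : Fin (n + 4)) : ℕ) = 3 % (n + 4) := rfl
      rw [e, Nat.mod_eq_of_lt (by omega)] at h3
      simp at h3
    · have h3 : (2 : Fin (n + 4)) = 1 := by
        rw [← h]; abel
      simp only [Fin.ext_iff] at h3
      have e : ((2 : Fin (n + 4)) : ℕ) = 2 % (n + 4) := rfl
      have e' : ((1 : Fin (n + 4)) : ℕ) = 1 % (n + 4) := rfl
      rw [e, e', Nat.mod_eq_of_lt (by omega), Nat.mod_eq_of_lt (by omega)] at h3
      simp at h3
  have adj1 : ∀ a : Fin (n + 4), (cycleGraph (n + 4)).Adj a (a + 1) := by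
    intro a
    rw [cycleGraph_adj]; right; abel
  have e12 : (1 : Fin (n + 4)) + 1 = 2 := by apply Fin.ext; simp [Fin.val_add]
  have step : ∀ a : Fin (n + 4), ¬ Q a → Q (a + 1) := fun a ha => (h1 _ _ (adj1 a)).resolve_left ha
  have hall : ∀ a : Fin (n + 4), ¬ Q a → False := by
    intro a ha
    have hq1 := step a ha
    have hq3 : ¬ Q (a + 1 + 2) := fun h => key _ ⟨hq1, h⟩
    have hq4 := step _ hq3
    have hq2 : ¬ Q (a + 2) := by
      intro h
      apply key (a + 2)
      refine ⟨h, ?_⟩
      have : a + 2 + 2 = a + 1 + 2 + 1 := by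
        rw [← e12]; abel
      rw [this]; exact hq4
    have := step _ hq2
    apply hq3
    have e : a + 1 + 2 = a + 2 + 1 := by abel
    rw [e]; exact this
  by_cases h0 : Q 0
  · by_cases h2' : Q (0 + 2)
    · exact key 0 ⟨h0, h2'⟩
    · exact hall _ h2'
  · exact hall _ h0

theorem exGraph_chordal (k : ℕ) : IsChordal (exGraph k) := by
  intro n hn
  obtain ⟨m, rfl⟩ : ∃ m, n = m + 4 := ⟨n - 4, by omega⟩
  refine ⟨fun f => ?_⟩
  refine cycle_split (fun a => ∃ i, f a = Sum.inl i) ?_ ?_
  · intro a b hab
    by_contra hcon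
    push Not at hcon
    have hf := f.map_rel_iff.mpr hab
    rcases ha : f a with i | i
    · exact hcon.1 i ha
    · rcases hb : f b with j | j
      · exact hcon.2 j hb
      · rw [ha, hb] at hf; exact hf
  · rintro a b hab ⟨i, hi⟩ ⟨j, hj⟩
    apply f.map_rel_iff.mp
    rw [hi, hj]
    intro hij
    apply hab
    apply f.injective
    rw [hi, hj, hij]

theorem cycle_parity {k : ℕ} (hk : Even k) (h4 : 4 ≤ k) {i j : Fin k}
    (h : (cycleGraph k).Adj i j) : (Even i.val ↔ ¬ Even j.val) := by
  obtain ⟨n, rfl⟩ : ∃ n, k = n + 2 := ⟨k - 2, by omega⟩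
  have main : ∀ a b : Fin (n + 2), a - b = 1 → (Even a.val ↔ ¬ Even b.val) := by
    intro a b hab
    have hab' : a = b + 1 := by rw [← hab]; abel
    have hv : a.val = (b.val + 1) % (n + 2) := by
      rw [hab']; simp [Fin.val_add]
    have hb := b.isLt
    rcases Nat.lt_or_ge (b.val + 1) (n + 2) with hlt | hge
    · rw [Nat.mod_eq_of_lt hlt] at hv
      rw [hv]; exact Nat.even_add_one
    · have hbe : b.val + 1 = n + 2 := by omega
      rw [hbe, Nat.mod_self] at hv
      rw [hv]
      have : ¬ Even b.val := by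
        intro hbv
        have : Even (b.val + 1) := by rw [hbe]; exact hk
        exact (Nat.even_add_one.mp this) hbv
      simp [this]
  rw [cycleGraph_adj] at h
  rcases h with h | h
  · exact main _ _ h
  · have := main _ _ h
    tauto

theorem exClique_sep_of_adj {k : ℕ} (i j : Fin k)
    (hi : ¬ Even i.val) (hj : Even j.val) (h : (cycleGraph k).Adj i j) :
    SeparatingPair (exGraph k) (exClique k i) (exClique k j) := by
  have hmem : (Sum.inl i : Fin k ⊕ Fin k) ∈ exClique k i ∩ exClique k j :=
    ⟨Or.inl rfl, Or.inr ⟨hj, h⟩⟩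
  refine ⟨⟨_, hmem⟩, ?_⟩
  intro u hu v hv p _
  have hu' : u = Sum.inr i := by
    rcases u with a | a
    · exfalso
      rcases hu.1 with h1 | h1
      · subst h1; exact hu.2 hmem.2
      · exact hi h1.1
    · have := hu.1
      simp only [mem_exClique_r] at this
      rw [this]
  subst hu'
  cases p with
  | nil => exact absurd hu.1 hv.2
  | @cons _ w _ hadj q =>
    rcases w with a | a
    · have ha : Att k a i := hadj
      rcases ha with rfl | ha
      · exact ⟨Sum.inl a, by simp, hmem⟩
      · exact absurd ha.1 hi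
    · exact absurd hadj (by simp)

theorem exClique_sep_iff {k : ℕ} (hk : Even k) (h4 : 4 ≤ k) (i j : Fin k) (hij : i ≠ j) :
    SeparatingPair (exGraph k) (exClique k i) (exClique k j) ↔ (cycleGraph k).Adj i j := by
  constructor
  · intro h
    by_contra hn
    have hn' : ¬ (cycleGraph k).Adj j i := fun h' => hn h'.symm
    obtain ⟨⟨x, hx1, hx2⟩, hsep⟩ := h
    have hnat : ¬ Att k i j := by
      rintro (h | h)
      · exact hij h
      · exact hn h.2
    have hnat' : ¬ Att k j i := by
      rintro (h | h)
      · exact hij h.symm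
      · exact hn' h.2
    by_cases hi : Even i.val
    · by_cases hj : Even j.val
      · obtain ⟨y, hy, hy'⟩ := hsep (Sum.inl i) ⟨Or.inl rfl, hnat⟩ (Sum.inl j) ⟨Or.inl rfl, hnat'⟩
          (Walk.cons (show (exGraph k).Adj (Sum.inl i) (Sum.inl j) from hij) Walk.nil)
          (by simp [hij])
        simp only [Walk.support_cons, Walk.support_nil, List.mem_cons, List.not_mem_nil,
          or_false] at hy
        rcases hy with rfl | rfl
        · exact hnat hy'.2
        · exact hnat' hy'.1
      · rcases x with a | a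
        · rcases hx2 with h2 | h2
          · subst h2; exact hnat' hx1
          · exact hj h2.1
        · exact hij ((show a = i from hx1).symm.trans (show a = j from hx2))
    · rcases x with a | a
      · rcases hx1 with h2 | h2
        · subst h2; exact hnat hx2
        · exact hi h2.1
      · exact hij ((show a = i from hx1).symm.trans (show a = j from hx2))
  · intro h
    have hp := cycle_parity hk h4 h
    by_cases hi : Even i.val
    · have hj := hp.mp hi
      exact (exClique_sep_of_adj j i hj hi h.symm).symm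
    · have hj : Even j.val := by by_contra hj; exact hi (hp.mpr hj)
      exact exClique_sep_of_adj i j hi hj h

theorem even_case {k : ℕ} (hk : Even k) (h4 : 4 ≤ k) :
    Nonempty (cycleGraph k ↪g reducedCliqueGraph (exGraph k)) := by
  refine ⟨⟨⟨fun j => ⟨exClique k j, exClique_max k j⟩, ?_⟩, ?_⟩⟩
  · intro a b hab
    have h : exClique k a = exClique k b := congrArg Subtype.val hab
    have : (Sum.inr a : Fin k ⊕ Fin k) ∈ exClique k b := by rw [← h]; simp
    simpa using this
  · intro a b
    change ((⟨exClique k a, exClique_max k a⟩ : {K // IsMaxClique (exGraph k) K}) ≠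
      ⟨exClique k b, exClique_max k b⟩ ∧ SeparatingPair (exGraph k) (exClique k a) (exClique k b)) ↔ _
    constructor
    · rintro ⟨h1, h2⟩
      have hab : a ≠ b := by rintro rfl; exact h1 rfl
      exact (exClique_sep_iff hk h4 a b hab).mp h2
    · intro h
      have hab : a ≠ b := h.ne
      refine ⟨?_, (exClique_sep_iff hk h4 a b hab).mpr h⟩
      intro h'
      have h'' : exClique k a = exClique k b := congrArg Subtype.val h'
      have : (Sum.inr a : Fin k ⊕ Fin k) ∈ exClique k b := by rw [← h'']; simp
      exact hab (by simpa using this)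

/-! ### The odd cycles -/

section Odd

variable {V : Type*} {G : SimpleGraph V}

/-- `u` and `v` are joined by a walk avoiding `S`. -/
def Conn (G : SimpleGraph V) (S : Set V) (u v : V) : Prop :=
  ∃ p : G.Walk u v, ∀ x ∈ p.support, x ∉ S

theorem Conn.symm {S : Set V} {u v : V} (h : Conn G S u v) : Conn G S v u := by
  obtain ⟨p, hp⟩ := h
  exact ⟨p.reverse, fun x hx => hp x (by simpa using hx)⟩

theorem Conn.trans {S : Set V} {u v w : V} (h : Conn G S u v) (h' : Conn G S v w) :
    Conn G S u w := by
  obtain ⟨p, hp⟩ := h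
  obtain ⟨q, hq⟩ := h'
  refine ⟨p.append q, fun x hx => ?_⟩
  rcases (Walk.mem_support_append_iff p q).mp hx with h | h
  · exact hp x h
  · exact hq x h

theorem Conn.of_clique {S K : Set V} (hK : G.IsClique K) {u v : V} (hu : u ∈ K \ S)
    (hv : v ∈ K \ S) : Conn G S u v := by
  by_cases huv : u = v
  · subst huv
    exact ⟨Walk.nil, by simpa using hu.2⟩
  · refine ⟨Walk.cons (hK hu.1 hv.1 huv) Walk.nil, ?_⟩
    intro x hx
    simp only [Walk.support_cons, Walk.support_nil, List.mem_cons, List.not_mem_nil,
      or_false] at hx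
    rcases hx with rfl | rfl
    · exact hu.2
    · exact hv.2

/-- `K` and `K'` lie in the same component after deleting `S`. -/
def Same (G : SimpleGraph V) (S K K' : Set V) : Prop :=
  ∃ u ∈ K \ S, ∃ v ∈ K' \ S, Conn G S u v

theorem Same.symm {S K K' : Set V} (h : Same G S K K') : Same G S K' K := by
  obtain ⟨u, hu, v, hv, h⟩ := h
  exact ⟨v, hv, u, hu, h.symm⟩

theorem Same.trans {S K K' K'' : Set V} (hK : G.IsClique K') (h : Same G S K K')
    (h' : Same G S K' K'') : Same G S K K'' := by
  obtain ⟨u, hu, v, hv, h⟩ := h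
  obtain ⟨v', hv', w, hw, h'⟩ := h'
  exact ⟨u, hu, w, hw, (h.trans (Conn.of_clique hK hv hv')).trans h'⟩

theorem sep_inter_eq {S K K' : Set V} (hK : G.IsClique K)
    (hKS : (K \ S).Nonempty) (hKS' : (K' \ S).Nonempty)
    (h1 : S ⊆ K) (h2 : S ⊆ K') (hs : ¬ Same G S K K') : K ∩ K' = S := by
  obtain ⟨u, hu⟩ := hKS
  obtain ⟨v, hv⟩ := hKS'
  apply Set.Subset.antisymm
  · intro x hx
    by_contra hxS
    exact hs ⟨x, ⟨hx.1, hxS⟩, x, ⟨hx.2, hxS⟩, Conn.of_clique hK ⟨hx.1, hxS⟩ ⟨hx.1, hxS⟩⟩
  · exact fun x hx => ⟨h1 hx, h2 hx⟩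

theorem sep_pair {S K K' : Set V} (hK : G.IsClique K)
    (hKS : (K \ S).Nonempty) (hKS' : (K' \ S).Nonempty)
    (hS : S.Nonempty)
    (h1 : S ⊆ K) (h2 : S ⊆ K') (hs : ¬ Same G S K K') : SeparatingPair G K K' := by
  have he := sep_inter_eq hK hKS hKS' h1 h2 hs
  unfold SeparatingPair
  refine ⟨by rw [he]; exact hS, ?_⟩
  intro u hu v hv p _
  by_contra hcon
  push Not at hcon
  rw [he] at hcon
  exact hs ⟨u, ⟨hu.1, fun h => hu.2 (h2 h)⟩, v, ⟨hv.1, fun h => hv.2 (h1 h)⟩, p, hcon⟩

theorem not_same_of_pair {K K' : Set V} (h : SeparatingPair G K K') :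
    ¬ Same G (K ∩ K') K K' := by
  classical
  rintro ⟨u, hu, v, hv, p, hp⟩
  obtain ⟨x, hx, hx'⟩ := h.2 u ⟨hu.1, fun h' => hu.2 ⟨hu.1, h'⟩⟩ v
    ⟨hv.1, fun h' => hv.2 ⟨h', hv.1⟩⟩ p.bypass (p.bypass_isPath)
  exact hp x (p.support_bypass_subset_support hx) hx'

theorem odd_core (n : ℕ) (K : ZMod (n + 5) → Set V) (hK : ∀ i, IsMaxClique G (K i))
    (hinj : Function.Injective K)
    (hadj : ∀ i j, i ≠ j → (SeparatingPair G (K i) (K j) ↔ (i - j = 1 ∨ j - i = 1))) :
    Even (n + 5) := by
  have hcl : ∀ i, G.IsClique (K i) := fun i => (hK i).1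
  -- small nonzero constants
  have hc : ∀ c : ℕ, 0 < c → c < 5 → ((c : ℕ) : ZMod (n + 5)) ≠ 0 := by
    intro c h0 h5 h
    rw [ZMod.natCast_eq_zero_iff] at h
    have := Nat.le_of_dvd h0 h
    omega
  have c1 : (1 : ZMod (n + 5)) ≠ 0 := by simpa using hc 1 (by norm_num) (by norm_num)
  have c2 : (2 : ZMod (n + 5)) ≠ 0 := by simpa using hc 2 (by norm_num) (by norm_num)
  have c3 : (3 : ZMod (n + 5)) ≠ 0 := by simpa using hc 3 (by norm_num) (by norm_num)
  have c4 : (4 : ZMod (n + 5)) ≠ 0 := by simpa using hc 4 (by norm_num) (by norm_num)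
  set S : ZMod (n + 5) → Set V := fun i => K i ∩ K (i + 1) with hSdef
  have hsucc : ∀ i : ZMod (n + 5), i ≠ i + 1 := by
    intro i h; exact c1 (by linear_combination -h)
  have hpair : ∀ i, SeparatingPair G (K i) (K (i + 1)) := fun i =>
    (hadj i (i + 1) (hsucc i)).mpr (Or.inr (by ring))
  have hSne : ∀ i, (S i).Nonempty := fun i => (hpair i).1
  have hnS : ∀ i, ¬ Same G (S i) (K i) (K (i + 1)) := fun i => not_same_of_pair (hpair i)
  -- every clique has a vertex outside `S i`
  have hout : ∀ i j, (K j \ S i).Nonempty := by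
    intro i j
    by_contra h
    rw [Set.not_nonempty_iff_eq_empty, Set.sdiff_eq_empty] at h
    have h1 : K j ⊆ K i := fun x hx => (h hx).1
    have h2 : K j ⊆ K (i + 1) := fun x hx => (h hx).2
    have e1 : K j = K i := Set.Subset.antisymm h1 ((hK j).2 (hcl i) h1)
    have e2 : K j = K (i + 1) := Set.Subset.antisymm h2 ((hK j).2 (hcl (i + 1)) h2)
    exact hsucc i (hinj (e1.symm.trans e2))
  -- two distinct cliques containing `S j` in different components are cyclically adjacent
  have hA : ∀ j x y, S j ⊆ K x → S j ⊆ K y → ¬ Same G (S j) (K x) (K y) →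
      (x - y = 1 ∨ y - x = 1) := by
    intro j x y hx hy hs
    have hxy : x ≠ y := by
      rintro rfl
      obtain ⟨u, hu⟩ := hout j x
      exact hs ⟨u, hu, u, hu, Conn.of_clique (hcl x) hu hu⟩
    exact (hadj x y hxy).mp (sep_pair (hcl x) (hout j x) (hout j y) (hSne j) hx hy hs)
  have hA' : ∀ j x y, S j ⊆ K x → S j ⊆ K y → ¬ Same G (S j) (K x) (K y) →
      K x ∩ K y = S j := by
    intro j x y hx hy hs
    exact sep_inter_eq (hcl x) (hout j x) (hout j y) hx hy hs
  -- step 2
  have h2 : ∀ i, ∃ j, j ≠ i ∧ S j ⊆ S i := by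
    intro i
    by_contra hcon
    push Not at hcon
    have hind : ∀ t : ℕ, t ≤ n + 4 → Same G (S i) (K (i + 1)) (K (i + 1 + t)) := by
      intro t
      induction t with
      | zero =>
        intro _
        obtain ⟨u, hu⟩ := hout i (i + 1)
        refine ⟨u, hu, u, ?_, Conn.of_clique (hcl _) hu hu⟩
        simpa using hu
      | succ t ih =>
        intro ht
        have ih' := ih (by omega)
        have hne : i + 1 + (t : ZMod (n + 5)) ≠ i := by
          intro h
          have h0 : ((t + 1 : ℕ) : ZMod (n + 5)) = 0 := by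
            push_cast; linear_combination h
          rw [ZMod.natCast_eq_zero_iff] at h0
          have := Nat.le_of_dvd (by omega) h0
          omega
        obtain ⟨x, hx, hxS⟩ := Set.not_subset.mp (hcon _ hne)
        have hstep : Same G (S i) (K (i + 1 + t)) (K (i + 1 + (t + 1 : ℕ))) := by
          refine ⟨x, ⟨hx.1, hxS⟩, x, ⟨?_, hxS⟩, Conn.of_clique (hcl _) ⟨hx.1, hxS⟩ ⟨hx.1, hxS⟩⟩
          have e : i + 1 + ((t + 1 : ℕ) : ZMod (n + 5)) = i + 1 + t + 1 := by push_cast; ring
          rw [e]; exact hx.2
        exact Same.trans (hcl _) ih' hstep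
    have hfin := hind (n + 4) (by omega)
    have e : i + 1 + ((n + 4 : ℕ) : ZMod (n + 5)) = i := by
      have h0 : ((n + 5 : ℕ) : ZMod (n + 5)) = 0 := ZMod.natCast_self _
      have : i + 1 + ((n + 4 : ℕ) : ZMod (n + 5)) = i + ((n + 5 : ℕ) : ZMod (n + 5)) := by
        push_cast; ring
      rw [this, h0, add_zero]
    rw [e] at hfin
    exact hnS i hfin.symm
  -- dichotomy: each clique is separated from one of the two sides
  have hdich : ∀ j x, ¬ Same G (S j) (K x) (K j) ∨ ¬ Same G (S j) (K x) (K (j + 1)) := by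
    intro j x
    by_contra hcon
    push Not at hcon
    exact hnS j (Same.trans (hcl x) hcon.1.symm hcon.2)
  have hSl : ∀ j, S j ⊆ K j := fun j => Set.inter_subset_left
  have hSr : ∀ j, S j ⊆ K (j + 1) := fun j => Set.inter_subset_right
  -- step 3
  have h3 : ∀ i, S i = S (i + 1) ∨ S (i - 1) = S i := by
    intro i
    obtain ⟨j, hji, hsub⟩ := h2 i
    have hx1 : S j ⊆ K i := hsub.trans (hSl i)
    have hx2 : S j ⊆ K (i + 1) := hsub.trans (hSr i)
    have q1 : i - j = 1 ∨ j - i = 1 ∨ i - j = 2 := by
      rcases hdich j i with h | h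
      · rcases hA j i j hx1 (hSl j) h with h | h
        · exact Or.inl h
        · exact Or.inr (Or.inl h)
      · rcases hA j i (j + 1) hx1 (hSr j) h with h | h
        · right; right; linear_combination h
        · exact absurd (by linear_combination h) hji
    have q2 : i - j = 1 ∨ j - i = 1 ∨ j - i = 2 := by
      rcases hdich j (i + 1) with h | h
      · rcases hA j (i + 1) j hx2 (hSl j) h with h | h
        · exact absurd (by linear_combination -h) hji
        · right; right; linear_combination h
      · rcases hA j (i + 1) (j + 1) hx2 (hSr j) h with h | h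
        · left; linear_combination h
        · right; left; linear_combination h
    have q3 : j = i + 1 ∨ j = i - 1 := by
      rcases q1 with h | h | h
      · right; linear_combination -h
      · left; linear_combination h
      · rcases q2 with h' | h' | h'
        · right; linear_combination -h'
        · left; linear_combination h'
        · exact absurd (by linear_combination -h - h') c4
    rcases q3 with rfl | rfl
    · left
      -- `K i` is not separated from `K (i+2)`
      have hns : Same G (S (i + 1)) (K i) (K (i + 1 + 1)) := by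
        by_contra hs
        rcases hA (i + 1) i (i + 1 + 1) hx1 (hSr _) hs with h | h
        · exact c3 (by linear_combination -h)
        · exact c1 (by linear_combination h)
      have hs : ¬ Same G (S (i + 1)) (K i) (K (i + 1)) := by
        intro hs
        exact hnS (i + 1) (Same.trans (hcl i) hs.symm hns)
      exact hA' (i + 1) i (i + 1) hx1 (hSl _) hs
    · right
      have e : i - 1 + 1 = i := by ring
      have hns : Same G (S (i - 1)) (K (i + 1)) (K (i - 1)) := by
        by_contra hs
        rcases hA (i - 1) (i + 1) (i - 1) hx2 (hSl _) hs with h | h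
        · exact c1 (by linear_combination h)
        · exact c3 (by linear_combination -h)
      have hs : ¬ Same G (S (i - 1)) (K i) (K (i + 1)) := by
        intro hs
        apply hnS (i - 1)
        rw [e]
        exact (Same.trans (hcl (i + 1)) hs hns).symm
      exact (hA' (i - 1) i (i + 1) hx1 hx2 hs).symm
  -- step 4
  have h4 : ∀ i, ¬ (S (i - 1) = S i ∧ S i = S (i + 1)) := by
    rintro i ⟨e1, e2⟩
    have em : i - 1 + 1 = i := by ring
    have s0 : S i ⊆ K (i - 1) := by rw [← e1]; exact hSl _
    have s1 : S i ⊆ K i := hSl i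
    have s2 : S i ⊆ K (i + 1) := hSr i
    have s3 : S i ⊆ K (i + 1 + 1) := by rw [e2]; exact hSr _
    have a1 : ¬ Same G (S i) (K (i - 1)) (K i) := by
      have := hnS (i - 1)
      rw [e1, em] at this
      exact this
    have a2 : Same G (S i) (K i) (K (i + 1 + 1)) := by
      by_contra hs
      rcases hA i i (i + 1 + 1) s1 s3 hs with h | h
      · exact c3 (by linear_combination -h)
      · exact c1 (by linear_combination h)
    have a3 : Same G (S i) (K (i - 1)) (K (i + 1 + 1)) := by
      by_contra hs
      rcases hA i (i - 1) (i + 1 + 1) s0 s3 hs with h | h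
      · exact c4 (by linear_combination -h)
      · exact c2 (by linear_combination h)
    exact a1 (Same.trans (hcl _) a3 a2.symm)
  -- parity
  have hP : ∀ i, (S (i + 1) = S (i + 1 + 1)) ↔ ¬ (S i = S (i + 1)) := by
    intro i
    have e : i + 1 - 1 = i := by ring
    have t3 := h3 (i + 1)
    have t4 := h4 (i + 1)
    rw [e] at t3 t4
    tauto
  have hpar : ∀ t : ℕ, (S (t : ZMod (n + 5)) = S (t + 1)) ↔ (Even t ↔ S 0 = S (0 + 1)) := by
    intro t
    induction t with
    | zero => simp
    | succ t ih =>
      have := hP (t : ZMod (n + 5))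
      push_cast
      rw [this, ih, Nat.even_add_one]
      tauto
  have hlast := hpar (n + 5)
  have h0 : ((n + 5 : ℕ) : ZMod (n + 5)) = 0 := ZMod.natCast_self _
  rw [h0] at hlast
  tauto

theorem odd_case {k : ℕ} (h4 : 4 ≤ k) (f : cycleGraph k ↪g reducedCliqueGraph G) : Even k := by
  rcases Nat.lt_or_ge 4 k with h5 | h5
  · obtain ⟨n, rfl⟩ : ∃ n, k = n + 5 := ⟨k - 5, by omega⟩
    refine odd_core (G := G) n (fun i => (f (show Fin (n + 5) from i)).1)
      (fun i => (f (show Fin (n + 5) from i)).2) ?_ ?_
    · intro a b hab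
      exact f.injective (Subtype.ext hab)
    · intro i j hij
      have h1 := f.map_rel_iff (a := (show Fin (n + 5) from i)) (b := (show Fin (n + 5) from j))
      have h2 : (cycleGraph (n + 5)).Adj (show Fin (n + 5) from i) (show Fin (n + 5) from j) ↔
          (i - j = 1 ∨ j - i = 1) := cycleGraph_adj
      rw [← h2, ← h1]
      constructor
      · intro h
        refine ⟨?_, h⟩
        intro h'
        exact hij (f.injective h')
      · intro h
        exact h.2
  · have : k = 4 := by omega
    subst this
    decide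

end Odd

/-- For `k ≥ 4`, some finite chordal graph has a reduced clique graph containing an induced
cycle with `k` vertices if and only if `k` is even.  In particular (`k = 8`) the statement
asked about in Q1 is false. -/
theorem result (k : ℕ) (hk : 4 ≤ k) :
    (∃ (V : Type) (_ : Finite V) (G : SimpleGraph V),
      IsChordal G ∧ Nonempty (cycleGraph k ↪g reducedCliqueGraph G)) ↔ Even k := by
  constructor
  · rintro ⟨V, _, G, _, ⟨f⟩⟩
    exact odd_case hk f
  · intro he
    exact ⟨Fin k ⊕ Fin k, inferInstance, exGraph k, exGraph_chordal k, even_case he hk⟩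

end Pool.Agent.Results.MP_0a00ee_co.InducedCycles
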